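import Pool.Agent.GT.StmtsE
import Pool.Agent.Helper24_GT.E_IDN

/-!
# Squad GT, row E_DUP: duplication, points of order 2, points with the same first coordinate
-/

set_option autoImplicit false

namespace Pool.Agent.GT.OF.H32

open Polynomial Pool.Agent.NJ Pool.Agent.GT.D Pool.Agent.GT.OF

noncomputable section

/-- the coefficients in terms of the roots, for all indices -/
theorem rts_i {F : Type} [Field F] {W : WeierstrassCurve F} {e : Fin 3 → F} (he : Rt3 W e)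
    (i : Fin 3) : W.a₁ ^ 2 + 4 * W.a₂ = -4 * (e i + e (i + 1) + e (i + 2)) ∧
      2 * W.a₄ + W.a₁ * W.a₃ =
        2 * (e i * e (i + 1) + e i * e (i + 2) + e (i + 1) * e (i + 2)) ∧
      W.a₃ ^ 2 + 4 * W.a₆ = -4 * (e i * e (i + 1) * e (i + 2)) := by
  obtain ⟨r2, r4, r6⟩ := he.rts
  rw [WeierstrassCurve.b₂] at r2
  rw [WeierstrassCurve.b₄] at r4
  rw [WeierstrassCurve.b₆] at r6
  fin_cases i
  · change W.a₁ ^ 2 + 4 * W.a₂ = -4 * (e 0 + e 1 + e 2) ∧
      2 * W.a₄ + W.a₁ * W.a₃ = 2 * (e 0 * e 1 + e 0 * e 2 + e 1 * e 2) ∧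
      W.a₃ ^ 2 + 4 * W.a₆ = -4 * (e 0 * e 1 * e 2)
    exact ⟨r2, r4, r6⟩
  · change W.a₁ ^ 2 + 4 * W.a₂ = -4 * (e 1 + e 2 + e 0) ∧
      2 * W.a₄ + W.a₁ * W.a₃ = 2 * (e 1 * e 2 + e 1 * e 0 + e 2 * e 0) ∧
      W.a₃ ^ 2 + 4 * W.a₆ = -4 * (e 1 * e 2 * e 0)
    refine ⟨?_, ?_, ?_⟩
    · rw [r2]; ring
    · rw [r4]; ring
    · rw [r6]; ring
  · change W.a₁ ^ 2 + 4 * W.a₂ = -4 * (e 2 + e 0 + e 1) ∧
      2 * W.a₄ + W.a₁ * W.a₃ = 2 * (e 2 * e 0 + e 2 * e 1 + e 0 * e 1) ∧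
      W.a₃ ^ 2 + 4 * W.a₆ = -4 * (e 2 * e 0 * e 1)
    refine ⟨?_, ?_, ?_⟩
    · rw [r2]; ring
    · rw [r4]; ring
    · rw [r6]; ring

theorem prod_i {F : Type} [Field F] (e : Fin 3 → F) (x : F) (i : Fin 3) :
    (x - e i) * (x - e (i + 1)) * (x - e (i + 2)) = (x - e 0) * (x - e 1) * (x - e 2) := by
  fin_cases i
  · rfl
  · change (x - e 1) * (x - e 2) * (x - e 0) = _
    ring
  · change (x - e 2) * (x - e 0) * (x - e 1) = _
    ring

/-- a point with the first coordinate `x` -/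
theorem exists_pt {F : Type} [Field F] {W : WeierstrassCurve F} {e : Fin 3 → F} (he : Rt3 W e)
    {x s : F} (hs : (x - e 0) * (x - e 1) * (x - e 2) = s * s) :
    ∃ Q : W.toAffine.Point, HasX Q x := by
  have two := he.two
  obtain ⟨r2, r4, r6⟩ := rts_i he 0
  change W.a₁ ^ 2 + 4 * W.a₂ = -4 * (e 0 + e 1 + e 2) at r2
  change 2 * W.a₄ + W.a₁ * W.a₃ = 2 * (e 0 * e 1 + e 0 * e 2 + e 1 * e 2) at r4
  change W.a₃ ^ 2 + 4 * W.a₆ = -4 * (e 0 * e 1 * e 2) at r6
  obtain ⟨y, hy⟩ : ∃ y : F, 2 * y = 2 * s - W.a₁ * x - W.a₃ :=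
    ⟨(2 * s - W.a₁ * x - W.a₃) / 2, by rw [mul_div_cancel₀ _ two]⟩
  have h4 : (4 : F) ≠ 0 := by
    have : (4 : F) = 2 * 2 := by norm_num
    rw [this]
    exact mul_ne_zero two two
  have heq : y ^ 2 + W.a₁ * x * y + W.a₃ * y = x ^ 3 + W.a₂ * x ^ 2 + W.a₄ * x + W.a₆ := by
    apply mul_left_cancel₀ h4
    linear_combination (2 * y + 2 * s + W.a₁ * x + W.a₃) * hy - 4 * hs - x ^ 2 * r2 -
      2 * x * r4 - r6
  refine ⟨WeierstrassCurve.Affine.Point.some x y ?_, y, _, rfl⟩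
  rw [WeierstrassCurve.Affine.nonsingular_iff']
  refine ⟨(WeierstrassCurve.Affine.equation_iff _ _).2 heq, ?_⟩
  by_contra hcon
  push Not at hcon
  obtain ⟨h1, h2⟩ := hcon
  have hs0 : s = 0 := by
    apply mul_left_cancel₀ two
    rw [mul_zero]
    linear_combination h2 - hy
  have h5 : 3 * x ^ 2 - 2 * (e 0 + e 1 + e 2) * x + (e 0 * e 1 + e 0 * e 2 + e 1 * e 2) = 0 := by
    apply mul_left_cancel₀ two
    rw [mul_zero]
    linear_combination (-2) * h1 + W.a₁ * h2 - x * r2 - r4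
  have h6 : (x - e 0) * (x - e 1) * (x - e 2) = 0 := by rw [hs, hs0, mul_zero]
  have n01 := sub_ne_zero.2 (he.ne 0 1 (by decide))
  have n02 := sub_ne_zero.2 (he.ne 0 2 (by decide))
  have n12 := sub_ne_zero.2 (he.ne 1 2 (by decide))
  rcases mul_eq_zero.1 h6 with h7 | h7
  · rcases mul_eq_zero.1 h7 with h8 | h8
    · rw [sub_eq_zero.1 h8] at h5
      have : (e 0 - e 1) * (e 0 - e 2) = 0 := by linear_combination h5
      rcases mul_eq_zero.1 this with h | h
      · exact n01 h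
      · exact n02 h
    · rw [sub_eq_zero.1 h8] at h5
      have : (e 0 - e 1) * (e 1 - e 2) = 0 := by linear_combination -h5
      rcases mul_eq_zero.1 this with h | h
      · exact n01 h
      · exact n12 h
  · rw [sub_eq_zero.1 h7] at h5
    have : (e 0 - e 2) * (e 1 - e 2) = 0 := by linear_combination h5
    rcases mul_eq_zero.1 this with h | h
    · exact n02 h
    · exact n12 h

/-- duplication -/
theorem dup_key {F : Type} [Field F] (two : (2 : F) ≠ 0) {a₁ a₂ a₃ a₄ a₆ e f g x y : F}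
    (hb2 : a₁ ^ 2 + 4 * a₂ = -4 * (e + f + g))
    (hb4 : 2 * a₄ + a₁ * a₃ = 2 * (e * f + e * g + f * g))
    (hb6 : a₃ ^ 2 + 4 * a₆ = -4 * (e * f * g))
    (h : y ^ 2 + a₁ * x * y + a₃ * y = x ^ 3 + a₂ * x ^ 2 + a₄ * x + a₆)
    {L : F} (hL : L * (2 * y + a₁ * x + a₃) = 3 * x ^ 2 + 2 * a₂ * x + a₄ - a₁ * y) :
    (L ^ 2 + a₁ * L - a₂ - x - x - e) * (4 * ((x - e) * (x - f) * (x - g))) =
      ((x - e) ^ 2 - (e - f) * (e - g)) ^ 2 := by
  have hE := H24.sq_eta hb2 hb4 hb6 h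
  have h4 : (4 : F) ≠ 0 := by
    have : (4 : F) = 2 * 2 := by norm_num
    rw [this]
    exact mul_ne_zero two two
  have hN : (2 * L + a₁) * (2 * y + a₁ * x + a₃) =
      2 * (3 * x ^ 2 - 2 * (e + f + g) * x + (e * f + e * g + f * g)) := by
    linear_combination 2 * hL + x * hb2 + hb4
  apply mul_left_cancel₀ h4
  rw [← hE]
  generalize 2 * y + a₁ * x + a₃ = η at *
  linear_combination ((2 * L + a₁) * η +
    2 * (3 * x ^ 2 - 2 * (e + f + g) * x + (e * f + e * g + f * g))) * hN -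
    (8 * x - 4 * f - 4 * g) * hE - η ^ 2 * hb2

theorem e_dup : DupStmt := by
  intro F _ W e he
  classical
  have two := he.two
  have h4 : (4 : F) ≠ 0 := by
    have : (4 : F) = 2 * 2 := by norm_num
    rw [this]
    exact mul_ne_zero two two
  have heq : ∀ {x y : F}, W.toAffine.Nonsingular x y →
      y ^ 2 + W.a₁ * x * y + W.a₃ * y = x ^ 3 + W.a₂ * x ^ 2 + W.a₄ * x + W.a₆ := fun h =>
    (WeierstrassCurve.Affine.equation_iff _ _).1 h.1
  have heta : ∀ {x y : F}, W.toAffine.Nonsingular x y →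
      (2 * y + W.a₁ * x + W.a₃) ^ 2 = 4 * ((x - e 0) * (x - e 1) * (x - e 2)) := by
    intro x y h
    obtain ⟨r2, r4, r6⟩ := rts_i he 0
    have := H24.sq_eta r2 r4 r6 (heq h)
    rw [prod_i] at this
    exact this
  have hneg : ∀ {x y : F}, y = W.toAffine.negY x y ↔ 2 * y + W.a₁ * x + W.a₃ = 0 := by
    intro x y
    rw [WeierstrassCurve.Affine.negY]
    constructor
    · intro h
      linear_combination h
    · intro h
      linear_combination h
  -- first coordinates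
  have hux : ∀ (Q : W.toAffine.Point) (x x' : F), HasX Q x → HasX Q x' → x' = x := by
    rintro Q x x' ⟨y, h, rfl⟩ ⟨y', h', h2⟩
    have h3 := (WeierstrassCurve.Affine.Point.some.injEq ..).mp h2
    exact h3.1.symm
  have hsame : ∀ (Q R : W.toAffine.Point) (x : F), HasX Q x → HasX R x → Q = R ∨ Q = -R := by
    rintro Q R x ⟨y, h, rfl⟩ ⟨y', h', rfl⟩
    rcases WeierstrassCurve.Affine.Y_eq_of_X_eq h.1 h'.1 rfl with h2 | h2
    · left
      subst h2
      rfl
    · right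
      subst h2
      rw [WeierstrassCurve.Affine.Point.neg_some]
  refine ⟨?_, ?_, ?_, hsame, ?_, ?_, ?_, ?_⟩
  · rintro Q x ⟨y, h, rfl⟩
    rw [two_nsmul]
    have h1 : (∃ i, x = e i) ↔ 2 * y + W.a₁ * x + W.a₃ = 0 := by
      constructor
      · rintro ⟨i, rfl⟩
        have h2 := heta h
        rw [← prod_i e (e i) i, sub_self, zero_mul, zero_mul, mul_zero] at h2
        exact pow_eq_zero_iff (two_ne_zero) |>.1 h2
      · intro h2
        have h3 := heta h
        rw [h2, zero_pow two_ne_zero] at h3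
        rcases mul_eq_zero.1 (mul_eq_zero.1 h3.symm |>.resolve_left h4) with h5 | h5
        · rcases mul_eq_zero.1 h5 with h6 | h6
          · exact ⟨0, sub_eq_zero.1 h6⟩
          · exact ⟨1, sub_eq_zero.1 h6⟩
        · exact ⟨2, sub_eq_zero.1 h5⟩
    rw [h1, ← hneg]
    constructor
    · intro h2
      by_contra h3
      rw [WeierstrassCurve.Affine.Point.add_self_of_Y_ne h3] at h2
      exact WeierstrassCurve.Affine.Point.some_ne_zero _ h2
    · intro h2
      exact WeierstrassCurve.Affine.Point.add_self_of_Y_eq h2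
  · rintro Q x ⟨y, h, rfl⟩ hQ
    rw [two_nsmul] at hQ ⊢
    have h3 : y ≠ W.toAffine.negY x y := fun h3 =>
      hQ (WeierstrassCurve.Affine.Point.add_self_of_Y_eq h3)
    have hη : 2 * y + W.a₁ * x + W.a₃ ≠ 0 := fun h5 => h3 (hneg.2 h5)
    refine ⟨W.toAffine.addX x x (W.toAffine.slope x x y y),
      ⟨_, _, WeierstrassCurve.Affine.Point.add_self_of_Y_ne h3⟩, fun i => ?_⟩
    have h5 : y - W.toAffine.negY x y = 2 * y + W.a₁ * x + W.a₃ := by
      rw [WeierstrassCurve.Affine.negY]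
      ring
    rw [WeierstrassCurve.Affine.addX, WeierstrassCurve.Affine.slope_of_Y_ne rfl h3, h5,
      ← prod_i e x i]
    obtain ⟨r2, r4, r6⟩ := rts_i he i
    exact dup_key two r2 r4 r6 (heq h) (div_mul_cancel₀ _ hη)
  · intro i
    refine exists_pt he (s := 0) ?_
    rw [← prod_i e (e i) i, sub_self, zero_mul, zero_mul, mul_zero]
  · intro Q x hQ
    refine ⟨?_, ?_, fun x' hx' => hux Q x x' hQ hx'⟩
    · obtain ⟨y, h, rfl⟩ := hQ
      exact ⟨_, _, WeierstrassCurve.Affine.Point.neg_some h⟩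
    · obtain ⟨y, h, rfl⟩ := hQ
      refine ⟨(2 * y + W.a₁ * x + W.a₃) / 2, ?_⟩
      have h2 := heta h
      have h3 : (x - e 0) * (x - e 1) * (x - e 2) = (2 * y + W.a₁ * x + W.a₃) ^ 2 / 4 := by
        rw [h2, mul_div_cancel_left₀ _ h4]
      rw [h3]
      have h6 : (4 : F) = 2 * 2 := by norm_num
      rw [h6]
      field_simp
  · intro Q hQ
    rcases Q with _ | ⟨x, y, h⟩
    · exact absurd rfl hQ
    · exact ⟨x, y, h, rfl⟩
  · rintro x ⟨y, h, h2⟩
    exact WeierstrassCurve.Affine.Point.some_ne_zero h h2.symm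
  · rintro x ⟨s, hs⟩
    exact exists_pt he hs

end

end Pool.Agent.GT.OF.H32
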