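import Pool.Agent.GT.StmtsE
import Pool.Agent.GT.StmtsD

/-!
# Squad GT, row E_DVL: the differences of the roots
-/

set_option autoImplicit false

namespace Pool.Agent.GT.OF.H32

open Polynomial Pool.Agent.NJ Pool.Agent.GT.D

noncomputable section

theorem adf_pow {f : ℤ → ZMod 2} (h : Adf f) {x : ℤ} (hx : x ≠ 0) (k : ℕ) :
    f (x ^ k) = (k : ZMod 2) * f x := by
  induction k with
  | zero => rw [pow_zero, h.one, Nat.cast_zero, zero_mul]
  | succ k ih =>
    rw [pow_succ, h.mul _ _ (pow_ne_zero k hx) hx, ih, Nat.cast_succ]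
    ring

theorem adf_prod {f : ℤ → ZMod 2} (h : Adf f) {ι : Type} (S : Finset ι) (g : ι → ℤ)
    (hg : ∀ l ∈ S, g l ≠ 0) : f (∏ l ∈ S, g l) = ∑ l ∈ S, f (g l) := by
  classical
  induction S using Finset.induction_on with
  | empty => rw [Finset.prod_empty, Finset.sum_empty, h.one]
  | insert a S ha ih =>
    rw [Finset.prod_insert ha, Finset.sum_insert ha,
      h.mul _ _ (hg a (Finset.mem_insert_self a S))
        (Finset.prod_ne_zero_iff.2 fun l hl => hg l (Finset.mem_insert_of_mem hl)),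
      ih fun l hl => hg l (Finset.mem_insert_of_mem hl)]

theorem prime_prod {ι : Type} (S : Finset ι) (p e : ι → ℕ) (hp : ∀ l, (p l).Prime) {q : ℕ}
    (hq : q.Prime) (h : (q : ℤ) ∣ ∏ l ∈ S, (p l : ℤ) ^ e l) : ∃ l ∈ S, q = p l := by
  obtain ⟨l, hl, h1⟩ := (Prime.dvd_finsetProd_iff (Nat.prime_iff_prime_int.1 hq) _).1 h
  have h2 : (q : ℤ) ∣ (p l : ℤ) := (Nat.prime_iff_prime_int.1 hq).dvd_of_dvd_pow h1
  exact ⟨l, hl, (Nat.prime_dvd_prime_iff_eq hq (hp l)).1 (Int.natCast_dvd_natCast.1 h2)⟩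

theorem val_prod {ι : Type} [Fintype ι] [DecidableEq ι] (p e : ι → ℕ) (hp : ∀ l, (p l).Prime)
    (hi : Function.Injective p) (l : ι) :
    padicValInt (p l) (∏ l', (p l' : ℤ) ^ e l') = e l := by
  have := Fact.mk (hp l)
  have hne : ∀ S : Finset ι, ∏ l' ∈ S, (p l' : ℤ) ^ e l' ≠ 0 := fun S =>
    Finset.prod_ne_zero_iff.2 fun l' _ => pow_ne_zero _ (by exact_mod_cast (hp l').ne_zero)
  rw [← Finset.mul_prod_erase Finset.univ (fun l' => (p l' : ℤ) ^ e l') (Finset.mem_univ l),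
    padicValInt.mul (pow_ne_zero _ (by exact_mod_cast (hp l).ne_zero)) (hne _)]
  have h1 : padicValInt (p l) (∏ l' ∈ Finset.univ.erase l, (p l' : ℤ) ^ e l') = 0 := by
    refine padicValInt.eq_zero_of_not_dvd fun hd => ?_
    obtain ⟨l', hl', h2⟩ := prime_prod _ p e hp (hp l) hd
    exact (Finset.mem_erase.1 hl').1 (hi h2).symm
  have h2 : padicValInt (p l) ((p l : ℤ) ^ e l) = e l := by
    have : ((p l : ℤ) ^ e l) = ((p l ^ e l : ℕ) : ℤ) := by push_cast; rfl
    rw [this, padicValInt.of_nat, padicValNat.prime_pow]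
  rw [h1, h2, add_zero]

theorem val_other {ι : Type} [Fintype ι] (p e : ι → ℕ) (hp : ∀ l, (p l).Prime) {q : ℕ}
    (hq : q.Prime) (hn : ∀ l, q ≠ p l) : padicValInt q (∏ l', (p l' : ℤ) ^ e l') = 0 := by
  refine padicValInt.eq_zero_of_not_dvd fun hd => ?_
  obtain ⟨l', -, h2⟩ := prime_prod _ p e hp hq hd
  exact hn l' h2

theorem e_dvl (add : AddStmt) (val : ValStmt) (exp : ExpStmt) (rcp : RcpStmt) : DvlStmt := by
  intro ι _ _ P r bl m st p h N hN H
  classical
  obtain ⟨M, hM1, hM2⟩ := H.deg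
  -- exponents
  set e : Fin 3 → ι → ℕ := fun i l => st l + if bl l = i then m l else 0 with he
  have hDn : ∀ i, Dn P bl m st p i = P i * ∏ l, (p l : ℤ) ^ e i l := fun i => rfl
  have hpz : ∀ l, (p l : ℤ) ≠ 0 := fun l => by exact_mod_cast (H.pr l).ne_zero
  have hpw : ∀ i, ∏ l, (p l : ℤ) ^ e i l ≠ 0 := fun i =>
    Finset.prod_ne_zero_iff.2 fun l _ => pow_ne_zero _ (hpz l)
  have hpos : ∀ i, 0 < ∏ l, (p l : ℤ) ^ e i l := fun i =>
    Finset.prod_pos fun l _ => pow_pos (by exact_mod_cast (H.pr l).pos) _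
  have hD0 : ∀ i, Dn P bl m st p i ≠ 0 := fun i => by
    rw [hDn]; exact mul_ne_zero (H.P0 i) (hpw i)
  have hp2 : ∀ l, p l ≠ 2 := fun l hl => by
    have := H.m8 l
    rw [hl] at this
    omega
  have hpr : ∀ l, p l ≠ r := fun l hl => by
    have h1 := (H.rd 0).1
    rw [← hl] at h1
    exact H.nd l 0 h1
  -- the sum of the exponents
  have hsum : ∀ i, ∑ l, e i l = M + ∑ l, st l := fun i => by
    rw [he]
    simp only
    rw [Finset.sum_add_distrib, hM1 i, add_comm]
  have hsum2 : ∀ i, ∑ l, ((e i l : ℕ) : ZMod 2) = 0 := fun i => by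
    rw [← Nat.cast_sum, hsum i]
    obtain ⟨k, hk⟩ := hM2
    rw [hk]
    push_cast
    exact CharTwo.add_self_eq_zero _
  -- valuations
  have hval : ∀ l i, padicValInt (p l) (Dn P bl m st p i) = e i l := fun l i => by
    have := Fact.mk (H.pr l)
    rw [hDn, padicValInt.mul (H.P0 i) (hpw i), padicValInt.eq_zero_of_not_dvd (H.nd l i),
      val_prod p (e i) H.pr H.inj l, zero_add]
  have hrP : ∀ i, padicValInt r (P i) = 1 := fun i => by
    have := Fact.mk H.rp
    have h1 : 1 ≤ padicValInt r (P i) := by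
      rcases Nat.eq_zero_or_pos (padicValInt r (P i)) with h0 | h0
      · exfalso
        have h2 := (padicValInt_dvd_iff (p := r) 1 (P i)).1 (by rw [pow_one]; exact (H.rd i).1)
        rcases h2 with h2 | h2
        · exact H.P0 i h2
        · omega
      · exact h0
    have h2 : ¬ 2 ≤ padicValInt r (P i) := fun h2 =>
      (H.rd i).2 ((padicValInt_dvd_iff 2 (P i)).2 (Or.inr h2))
    omega
  have hrD : ∀ i, padicValInt r (Dn P bl m st p i) = 1 := fun i => by
    have := Fact.mk H.rp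
    rw [hDn, padicValInt.mul (H.P0 i) (hpw i), hrP i,
      val_other p (e i) H.pr H.rp (fun l hl => hpr l hl.symm)]
  -- symbols
  have hfP : ∀ l i, ul (p l) (P i) = 1 := by
    intro l i
    have hA : Adf (ul (p l)) := add.2.1 (p l) (H.pr l) (hp2 l)
    obtain ⟨hm1, h2⟩ := rcp.1 (p l) (H.pr l) (H.m8 l)
    set S : Finset ℕ := (2 * P 0 * P 1 * P 2).natAbs.primeFactors with hS
    have hne : (2 * P 0 * P 1 * P 2) ≠ 0 :=
      mul_ne_zero (mul_ne_zero (mul_ne_zero two_ne_zero (H.P0 0)) (H.P0 1)) (H.P0 2)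
    have hmem : ∀ q : ℕ, q ∈ S ↔ q.Prime ∧ (q : ℤ) ∣ 2 * P 0 * P 1 * P 2 := by
      intro q
      rw [hS, Nat.mem_primeFactors]
      constructor
      · rintro ⟨h1, h2, -⟩
        exact ⟨h1, Int.natCast_dvd.2 h2⟩
      · rintro ⟨h1, h2⟩
        exact ⟨h1, Int.natCast_dvd.1 h2, Int.natAbs_ne_zero.2 hne⟩
    have hdv : ∀ q : ℕ, (q : ℤ) ∣ P i → (q : ℤ) ∣ 2 * P 0 * P 1 * P 2 := by
      intro q hq
      fin_cases i
      · exact Dvd.dvd.mul_right (Dvd.dvd.mul_right (Dvd.dvd.mul_left hq 2) _) _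
      · exact Dvd.dvd.mul_right (Dvd.dvd.mul_left hq _) _
      · exact Dvd.dvd.mul_left hq _
    have hx := exp (ul (p l)) hA (P i) (H.P0 i) S (fun q hq => ((hmem q).1 hq).1) (by
      intro q hq hqS
      refine (val.1 q (P i) hq fun hd => hqS ((hmem q).2 ⟨hq, hdv q hd⟩)).1)
    rw [hx, hm1, mul_zero, zero_add]
    have hrS : r ∈ S := (hmem r).2 ⟨H.rp, hdv r (H.rd i).1⟩
    rw [Finset.sum_eq_single r]
    · have h3 : ul (p l) r = 1 := by
        rw [rcp.2.1 (p l) r (H.pr l) H.rp (H.m8 l) H.r2 (hpr l)]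
        exact H.ur l
      rw [h3, mul_one]
      show ((padicValInt r (P i) : ℕ) : ZMod 2) = 1
      rw [hrP i, Nat.cast_one]
    · intro q hq hqr
      obtain ⟨hqp, hqd⟩ := (hmem q).1 hq
      have h3 : ul (p l) q = 0 := by
        by_cases hq2 : q = 2
        · rw [hq2]
          exact_mod_cast h2
        · have hqd1 : (q : ℤ) ∣ (p l : ℤ) - 1 := by
            refine dvd_trans ?_ (H.cl l q hqp hqr hqd)
            exact dvd_pow_self _ (by omega)
          have hqn : ¬ (q : ℤ) ∣ (p l : ℤ) := fun h4 => by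
            have h5 : (q : ℤ) ∣ 1 := by
              have := dvd_sub h4 hqd1
              rwa [sub_sub_cancel] at this
            exact hqp.one_lt.ne' (by
              have := Int.natCast_dvd.1 h5
              exact Nat.dvd_one.1 this)
          have hne' : p l ≠ q := fun h4 => hqn (by rw [h4])
          rw [rcp.2.1 (p l) q (H.pr l) hqp (H.m8 l) hq2 hne']
          refine (val.2.2.1 q (p l) hqp hq2 hqn).1 ?_
          have h6 : (((p l : ℕ) : ℤ) : ZMod q) = 1 := by
            have h7 := (ZMod.intCast_zmod_eq_zero_iff_dvd ((p l : ℤ) - 1) q).2 hqd1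
            rw [Int.cast_sub, Int.cast_one, sub_eq_zero] at h7
            exact h7
          rw [h6]
          exact ⟨1, by rw [mul_one]⟩
      rw [h3, mul_zero]
    · intro hn
      exact absurd hrS hn
  have hful : ∀ l i, ul (p l) (Dn P bl m st p i) = 1 + h * ((e i l : ℕ) : ZMod 2) := by
    intro l i
    have hA : Adf (ul (p l)) := add.2.1 (p l) (H.pr l) (hp2 l)
    rw [hDn, hA.mul _ _ (H.P0 i) (hpw i), hfP l i,
      adf_prod hA Finset.univ _ (fun l' _ => pow_ne_zero _ (hpz l'))]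
    congr 1
    rw [Finset.sum_congr rfl fun l' _ => adf_pow hA (hpz l') (e i l')]
    have h1 : ∀ l' ∈ (Finset.univ : Finset ι), ((e i l' : ℕ) : ZMod 2) * ul (p l) (p l') =
        h * ((e i l' : ℕ) : ZMod 2) + (if l' = l then h * ((e i l : ℕ) : ZMod 2) else 0) := by
      intro l' _
      by_cases hl : l' = l
      · subst hl
        rw [val.2.2.2.1 (p l') (H.pr l') (hp2 l'), mul_zero, if_pos rfl,
          CharTwo.add_self_eq_zero]
      · rw [H.mu l l' (fun h2 => hl h2.symm), if_neg hl, add_zero, mul_comm]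
    rw [Finset.sum_congr rfl h1, Finset.sum_add_distrib, ← Finset.mul_sum, hsum2 i, mul_zero,
      zero_add, Finset.sum_ite_eq' Finset.univ l, if_pos (Finset.mem_univ l)]
  refine ⟨fun l i => ⟨hval l i, ?_⟩, fun i => ⟨hD0 i, ?_, hrD i, ?_⟩, ?_, ?_⟩
  · rw [hful l i, he]
    simp only
    rw [Nat.cast_add, Nat.cast_ite, Nat.cast_zero]
  · rw [hDn]
    have h1 : P i * (∏ l, (p l : ℤ) ^ e i l) * P i = (P i) ^ 2 * ∏ l, (p l : ℤ) ^ e i l := by
      ring
    rw [h1]
    exact mul_pos (by have := H.P0 i; positivity) (hpos i)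
  · show ((padicValInt r (Dn P bl m st p i) : ℕ) : ZMod 2) +
      h * ∑ l, ((padicValInt (p l) (Dn P bl m st p i) : ℕ) : ZMod 2) = 1
    rw [hrD i, Finset.sum_congr rfl fun l _ => by rw [hval l i], hsum2 i, mul_zero, add_zero,
      Nat.cast_one]
  · intro q hq hqr hqd i
    rw [hDn]
    have h1 : ∏ l, (p l : ℤ) ^ e i l ≡ 1 [ZMOD (q : ℤ) ^ N] := by
      have h2 : ∀ S : Finset ι, ∏ l ∈ S, (p l : ℤ) ^ e i l ≡ 1 [ZMOD (q : ℤ) ^ N] := by
        intro S
        induction S using Finset.induction_on with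
        | empty => exact Int.ModEq.refl _
        | insert a S ha ih =>
          rw [Finset.prod_insert ha]
          have h3 : (p a : ℤ) ≡ 1 [ZMOD (q : ℤ) ^ N] :=
            ((Int.modEq_iff_dvd.2 (H.cl a q hq hqr hqd)).symm)
          have h4 := (h3.pow (e i a)).mul ih
          rwa [one_pow, one_mul] at h4
      exact h2 Finset.univ
    have h2 := (Int.modEq_iff_dvd.1 h1.symm)
    have h3 : P i * ∏ l, (p l : ℤ) ^ e i l - P i = P i * (∏ l, (p l : ℤ) ^ e i l - 1) := by ring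
    rw [h3]
    exact Dvd.dvd.mul_left h2 _
  · intro q hq hqd hqp i hd
    rw [hDn] at hd
    rcases (Nat.prime_iff_prime_int.1 hq).dvd_or_dvd hd with h1 | h1
    · refine hqd ?_
      fin_cases i
      · exact Dvd.dvd.mul_right (Dvd.dvd.mul_right (Dvd.dvd.mul_left h1 2) _) _
      · exact Dvd.dvd.mul_right (Dvd.dvd.mul_left h1 _) _
      · exact Dvd.dvd.mul_left h1 _
    · obtain ⟨l, -, h2⟩ := prime_prod _ p (e i) H.pr hq h1
      exact hqp l h2

end

end Pool.Agent.GT.OF.H32
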