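import Pool.Agent.GT.StmtsC

/-!
# Squad GT, row C_QQQ: diagonalisation of the form of Selberg
-/

set_option autoImplicit false
set_option linter.unusedSectionVars false

open Finset

namespace Pool.Agent.GT.H32

/-- the product as a real number -/
noncomputable def nr (c : Finset ℕ) : ℝ := ∏ p ∈ c, (p : ℝ)

/-- `∏ (p - 1)` -/
noncomputable def fi (c : Finset ℕ) : ℝ := ∏ p ∈ c, ((p : ℝ) - 1)

theorem nn_cast (c : Finset ℕ) : (nn c : ℝ) = nr c := by
  unfold nn nr
  push_cast
  rfl

section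

variable {P : Finset ℕ} (hP : ∀ p ∈ P, p.Prime)

include hP

theorem ne0 {p : ℕ} (hp : p ∈ P) : (p : ℝ) ≠ 0 := by
  exact_mod_cast (hP p hp).ne_zero

theorem ne1 {p : ℕ} (hp : p ∈ P) : (p : ℝ) - 1 ≠ 0 := by
  have h : (1 : ℝ) < p := by exact_mod_cast (hP p hp).one_lt
  linarith

theorem iw_nr {c : Finset ℕ} (hc : c ⊆ P) : iw c * nr c = 1 := by
  unfold iw nr
  rw [← prod_mul_distrib]
  apply prod_eq_one
  intro p hp
  rw [one_div, inv_mul_cancel₀ (ne0 hP (hc hp))]

theorem gg_fi {c : Finset ℕ} (hc : c ⊆ P) : gg c * fi c = 1 := by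
  unfold gg fi
  rw [← prod_mul_distrib]
  apply prod_eq_one
  intro p hp
  rw [one_div, inv_mul_cancel₀ (ne1 hP (hc hp))]

theorem gg_neg {c : Finset ℕ} (hc : c ⊆ P) : gg c * ∏ p ∈ c, (1 - (p : ℝ)) = (-1) ^ c.card := by
  unfold gg
  rw [← prod_mul_distrib, ← prod_const]
  apply prod_congr rfl
  intro p hp
  have h := ne1 hP (hc hp)
  field_simp
  ring

theorem iw_union {a b t : Finset ℕ} (ha : a ⊆ P) :
    iw ((a ∪ b) \ t) = iw (a \ t) * iw (b \ t) * nr ((a ∩ b) \ t) := by
  have e1 : (a ∪ b) \ t = (a \ t) ∪ (b \ t) := by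
    ext x
    simp only [mem_sdiff, mem_union]
    tauto
  have e2 : (a ∩ b) \ t = (a \ t) ∩ (b \ t) := by
    ext x
    simp only [mem_sdiff, mem_inter]
    tauto
  have h1 : iw ((a \ t) ∪ (b \ t)) * iw ((a \ t) ∩ (b \ t)) = iw (a \ t) * iw (b \ t) :=
    prod_union_inter
  have h2 : iw ((a \ t) ∩ (b \ t)) * nr ((a \ t) ∩ (b \ t)) = 1 :=
    iw_nr hP ((inter_subset_left.trans sdiff_subset).trans ha)
  rw [e1, e2, ← h1, mul_assoc, h2, mul_one]

omit hP in
theorem nr_expand (c : Finset ℕ) : nr c = ∑ r ∈ c.powerset, fi r := by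
  unfold nr fi
  rw [← prod_one_add]
  apply prod_congr rfl
  intro p _
  ring

/-- the term of the linear form -/
noncomputable def xt (P : Finset ℕ) (R : ℕ) (t r a : Finset ℕ) : ℝ :=
  if r ⊆ a then lam P R a * iw (a \ t) else 0

theorem term_eq {R : ℕ} {t a b : Finset ℕ} (ha : a ⊆ P) :
    lam P R a * lam P R b * iw ((a ∪ b) \ t) =
      ∑ r ∈ (P \ t).powerset, fi r * (xt P R t r a * xt P R t r b) := by
  have e1 : nr ((a ∩ b) \ t) = ∑ r ∈ (P \ t).powerset, if r ⊆ a ∧ r ⊆ b then fi r else 0 := by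
    rw [nr_expand, ← sum_filter]
    apply sum_congr _ (fun _ _ => rfl)
    ext r
    simp only [mem_powerset, mem_filter]
    constructor
    · intro h
      refine ⟨h.trans ?_, h.trans (sdiff_subset.trans inter_subset_left),
        h.trans (sdiff_subset.trans inter_subset_right)⟩
      exact sdiff_subset_sdiff (inter_subset_left.trans ha) le_rfl
    · rintro ⟨h1, h2, h3⟩ x hx
      rw [mem_sdiff, mem_inter]
      exact ⟨⟨h2 hx, h3 hx⟩, (mem_sdiff.1 (h1 hx)).2⟩
  rw [iw_union hP ha, e1, mul_sum, mul_sum]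
  apply sum_congr rfl
  intro r _
  unfold xt
  by_cases h1 : r ⊆ a
  · by_cases h2 : r ⊆ b
    · rw [if_pos ⟨h1, h2⟩, if_pos h1, if_pos h2]
      ring
    · rw [if_neg (fun h => h2 h.2), if_neg h2]
      ring
  · rw [if_neg (fun h => h1 h.1), if_neg h1]
    ring

theorem QQ_eq {R : ℕ} {t : Finset ℕ} : QQ P R t =
    ∑ r ∈ (P \ t).powerset, fi r * (∑ a ∈ P.powerset, xt P R t r a) ^ 2 := by
  unfold QQ
  have e1 : ∑ a ∈ P.powerset, ∑ b ∈ P.powerset, lam P R a * lam P R b * iw ((a ∪ b) \ t) =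
      ∑ a ∈ P.powerset, ∑ b ∈ P.powerset, ∑ r ∈ (P \ t).powerset,
        fi r * (xt P R t r a * xt P R t r b) := by
    apply sum_congr rfl
    intro a ha
    apply sum_congr rfl
    intro b _
    exact term_eq hP (mem_powerset.1 ha)
  rw [e1]
  have e2 : ∀ a ∈ P.powerset, ∑ b ∈ P.powerset, ∑ r ∈ (P \ t).powerset,
        fi r * (xt P R t r a * xt P R t r b) = ∑ r ∈ (P \ t).powerset, ∑ b ∈ P.powerset,
        fi r * (xt P R t r a * xt P R t r b) := fun a _ => sum_comm
  rw [sum_congr rfl e2, sum_comm]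
  apply sum_congr rfl
  intro r _
  rw [sq, sum_mul_sum, mul_sum]
  apply sum_congr rfl
  intro a _
  rw [mul_sum]

theorem nr_iw {a t : Finset ℕ} (ha : a ⊆ P) : nr a * iw (a \ t) = nr (a ∩ t) := by
  have e1 : nr a = nr (a \ t) * nr (a ∩ t) := by
    unfold nr
    rw [mul_comm]
    exact (prod_inter_mul_prod_sdiff a t _).symm
  have h2 := iw_nr hP (sdiff_subset.trans ha : a \ t ⊆ P)
  rw [e1]
  calc nr (a \ t) * nr (a ∩ t) * iw (a \ t) = (iw (a \ t) * nr (a \ t)) * nr (a ∩ t) := by ring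
    _ = nr (a ∩ t) := by rw [h2, one_mul]

/-- the inner sum -/
theorem inner_sum {r r' t : Finset ℕ} (hr' : r' ⊆ P) (hrt : Disjoint r t) :
    (∑ a ∈ P.powerset, if r ⊆ a ∧ a ⊆ r' then (-1 : ℝ) ^ a.card * nr (a ∩ t) else 0) =
      if r ⊆ r' ∧ r' \ r ⊆ t then (-1 : ℝ) ^ r.card * ∏ p ∈ r' \ r, (1 - (p : ℝ)) else 0 := by
  by_cases hrr : r ⊆ r'
  · have e1 : (∑ a ∈ P.powerset, if r ⊆ a ∧ a ⊆ r' then (-1 : ℝ) ^ a.card * nr (a ∩ t) else 0) =
        ∑ c ∈ (r' \ r).powerset, (-1 : ℝ) ^ r.card *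
          ∏ p ∈ c, (-(if p ∈ t then (p : ℝ) else 1)) := by
      rw [← sum_filter]
      refine sum_nbij' (fun a => a \ r) (fun c => r ∪ c) ?_ ?_ ?_ ?_ ?_
      · intro a ha
        rw [mem_filter] at ha
        rw [mem_powerset]
        exact sdiff_subset_sdiff ha.2.2 le_rfl
      · intro c hc
        rw [mem_powerset] at hc
        rw [mem_filter, mem_powerset]
        have h1 : r ∪ c ⊆ r' := union_subset hrr (hc.trans sdiff_subset)
        exact ⟨h1.trans hr', subset_union_left, h1⟩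
      · intro a ha
        rw [mem_filter] at ha
        exact union_sdiff_of_subset ha.2.1
      · intro c hc
        rw [mem_powerset] at hc
        have h1 : Disjoint r c := by
          rw [disjoint_left]
          intro x hx hxc
          exact (mem_sdiff.1 (hc hxc)).2 hx
        exact union_sdiff_cancel_left h1
      · intro a ha
        rw [mem_filter] at ha
        have h1 : a.card = r.card + (a \ r).card := by
          rw [card_sdiff_of_subset ha.2.1]
          have h2 := card_le_card ha.2.1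
          omega
        have h2 : a ∩ t = (a \ r) ∩ t := by
          ext x
          simp only [mem_inter, mem_sdiff]
          constructor
          · rintro ⟨h3, h4⟩
            exact ⟨⟨h3, fun h5 => disjoint_left.1 hrt h5 h4⟩, h4⟩
          · rintro ⟨⟨h3, _⟩, h4⟩
            exact ⟨h3, h4⟩
        rw [h1, h2, pow_add, mul_assoc]
        congr 1
        rw [← prod_const, nr, ← prod_ite_mem]
        rw [← prod_mul_distrib]
        apply prod_congr rfl
        intro p _
        split_ifs <;> ring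
    rw [e1, ← mul_sum, ← prod_one_add]
    by_cases h2 : r' \ r ⊆ t
    · rw [if_pos ⟨hrr, h2⟩]
      congr 1
      apply prod_congr rfl
      intro p hp
      rw [if_pos (h2 hp)]
      ring
    · rw [if_neg (fun h => h2 h.2)]
      rw [not_subset] at h2
      obtain ⟨p, hp, hpt⟩ := h2
      rw [prod_eq_zero hp, mul_zero]
      rw [if_neg hpt]
      ring
  · rw [if_neg (fun h => hrr h.1)]
    apply sum_eq_zero
    intro a _
    rw [if_neg]
    rintro ⟨h1, h2⟩
    exact hrr (h1.trans h2)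

/-- the linear form -/
theorem lin_form {R : ℕ} {t r : Finset ℕ} (ht : t ⊆ P) (hr : r ⊆ P) (hrt : Disjoint r t) :
    ∑ a ∈ P.powerset, xt P R t r a = (-1 : ℝ) ^ r.card * gg r *
      (∑ s ∈ t.powerset, if nn r * nn s < R then (-1 : ℝ) ^ s.card else 0) / GG P R := by
  have e1 : ∀ a ∈ P.powerset, xt P R t r a = (∑ r' ∈ lv P R, gg r' *
      (if r ⊆ a ∧ a ⊆ r' then (-1 : ℝ) ^ a.card * nr (a ∩ t) else 0)) / GG P R := by
    intro a ha
    rw [mem_powerset] at ha
    unfold xt
    by_cases h1 : r ⊆ a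
    · rw [if_pos h1, lam, nn_cast, sum_filter]
      have e2 : (-1 : ℝ) ^ a.card * nr a * (∑ r' ∈ lv P R, if a ⊆ r' then gg r' else 0) / GG P R *
          iw (a \ t) = (-1 : ℝ) ^ a.card * (nr a * iw (a \ t)) *
            (∑ r' ∈ lv P R, if a ⊆ r' then gg r' else 0) / GG P R := by ring
      rw [e2, nr_iw hP ha, mul_sum]
      congr 1
      apply sum_congr rfl
      intro r' _
      by_cases h2 : a ⊆ r'
      · rw [if_pos h2, if_pos ⟨h1, h2⟩]
        ring
      · rw [if_neg h2, if_neg (fun h => h2 h.2)]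
        ring
    · rw [if_neg h1]
      symm
      rw [sum_eq_zero, zero_div]
      intro r' _
      rw [if_neg (fun h => h1 h.1), mul_zero]
  rw [sum_congr rfl e1, ← sum_div, sum_comm]
  congr 1
  have e3 : ∀ r' ∈ lv P R, (∑ a ∈ P.powerset, gg r' *
      (if r ⊆ a ∧ a ⊆ r' then (-1 : ℝ) ^ a.card * nr (a ∩ t) else 0)) =
      if r ⊆ r' ∧ r' \ r ⊆ t then gg r' * ((-1 : ℝ) ^ r.card * ∏ p ∈ r' \ r, (1 - (p : ℝ)))
      else 0 := by
    intro r' hr'
    unfold lv at hr'
    rw [mem_filter, mem_powerset] at hr'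
    rw [← mul_sum, inner_sum hP hr'.1 hrt, mul_ite, mul_zero]
  rw [sum_congr rfl e3, ← sum_filter, ← sum_filter, mul_sum]
  refine sum_nbij' (fun r' => r' \ r) (fun s => r ∪ s) ?_ ?_ ?_ ?_ ?_
  · intro r' hr'
    unfold lv at hr'
    rw [mem_filter, mem_filter, mem_powerset] at hr'
    rw [mem_filter, mem_powerset]
    refine ⟨hr'.2.2, ?_⟩
    have h1 : nn r * nn (r' \ r) = nn r' := by
      unfold nn
      rw [mul_comm]
      exact prod_sdiff hr'.2.1
    rw [h1]
    exact hr'.1.2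
  · intro s hs
    rw [mem_filter, mem_powerset] at hs
    unfold lv
    rw [mem_filter, mem_filter, mem_powerset]
    have hd : Disjoint r s := disjoint_of_subset_right hs.1 hrt
    have h1 : nn (r ∪ s) = nn r * nn s := prod_union hd
    refine ⟨⟨union_subset hr (hs.1.trans ht), ?_⟩, subset_union_left, ?_⟩
    · rw [h1]
      exact hs.2
    · rw [union_sdiff_cancel_left hd]
      exact hs.1
  · intro r' hr'
    rw [mem_filter] at hr'
    exact union_sdiff_of_subset hr'.2.1
  · intro s hs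
    rw [mem_filter, mem_powerset] at hs
    have hd : Disjoint r s := disjoint_of_subset_right hs.1 hrt
    exact union_sdiff_cancel_left hd
  · intro r' hr'
    unfold lv at hr'
    rw [mem_filter, mem_filter, mem_powerset] at hr'
    have h1 : gg r' = gg (r' \ r) * gg r := (prod_sdiff hr'.2.1).symm
    have h2 := gg_neg hP (sdiff_subset.trans hr'.1.1 : r' \ r ⊆ P)
    rw [h1]
    calc gg (r' \ r) * gg r * ((-1 : ℝ) ^ r.card * ∏ p ∈ r' \ r, (1 - (p : ℝ))) =
        (-1 : ℝ) ^ r.card * gg r * (gg (r' \ r) * ∏ p ∈ r' \ r, (1 - (p : ℝ))) := by ring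
      _ = _ := by rw [h2]

end

/-- C_QQQ -/
theorem qqq : QqqStmt := by
  intro P R t hP hR ht
  rw [QQ_eq hP, sum_div]
  have e1 : ∀ r ∈ (P \ t).powerset, fi r * (∑ a ∈ P.powerset, xt P R t r a) ^ 2 =
      gg r * (∑ s ∈ t.powerset, if nn r * nn s < R then (-1 : ℝ) ^ s.card else 0) ^ 2 /
        GG P R ^ 2 := by
    intro r hr
    rw [mem_powerset] at hr
    have hrP : r ⊆ P := hr.trans sdiff_subset
    have hrt : Disjoint r t := by
      rw [disjoint_left]
      intro x hx hxt
      exact (mem_sdiff.1 (hr hx)).2 hxt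
    rw [lin_form hP ht hrP hrt, div_pow, mul_pow, mul_pow, ← pow_mul, mul_comm r.card 2, pow_mul,
      neg_one_sq, one_pow, one_mul]
    have h2 := gg_fi hP hrP
    calc fi r * (gg r ^ 2 * (∑ s ∈ t.powerset, if nn r * nn s < R then (-1 : ℝ) ^ s.card
          else 0) ^ 2 / GG P R ^ 2) = (gg r * fi r) * gg r * (∑ s ∈ t.powerset,
          if nn r * nn s < R then (-1 : ℝ) ^ s.card else 0) ^ 2 / GG P R ^ 2 := by ring
      _ = _ := by rw [h2, one_mul]
  rw [sum_congr rfl e1]
  symm
  apply sum_subset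
  · intro r hr
    unfold lv at hr
    rw [mem_filter, mem_filter, mem_powerset] at hr
    rw [mem_powerset, subset_sdiff]
    exact ⟨hr.1.1, hr.2⟩
  · intro r hr hr'
    rw [mem_powerset, subset_sdiff] at hr
    have h1 : R ≤ nn r := by
      by_contra h
      apply hr'
      unfold lv
      rw [mem_filter, mem_filter, mem_powerset]
      exact ⟨⟨hr.1, not_le.1 h⟩, hr.2⟩
    have h2 : (∑ s ∈ t.powerset, if nn r * nn s < R then (-1 : ℝ) ^ s.card else 0) = 0 := by
      apply sum_eq_zero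
      intro s hs
      rw [mem_powerset] at hs
      rw [if_neg]
      rw [not_lt]
      have h3 : 1 ≤ nn s := by
        apply Nat.one_le_iff_ne_zero.2
        unfold nn
        rw [prod_ne_zero_iff]
        intro p hp
        exact (hP p (ht (hs hp))).ne_zero
      calc R ≤ nn r * 1 := by rw [mul_one]; exact h1
        _ ≤ nn r * nn s := Nat.mul_le_mul_left _ h3
    rw [h2]
    ring

end Pool.Agent.GT.H32
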